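import Pool.Agent.H33.G.R_seed8.H499R2.CL.Defs

/-! Project CL, task I (helper537): invariant sets are equidistributed in the classes mod `3^m`,
with the right density. -/

set_option autoImplicit false

namespace Pool.Agent.H499R2.ND

open Pool.Agent.H320R2.PD Finset Filter Topology

open Pool.Agent.H319R2.Lln (mu)

/-- the odd elements of an invariant set in a window -/
theorem clI_odd {S : Set ℤ} (hS : Inv 1 S) {A : ℝ} (hA : 0 < A) :
    ((cls S A (2 * A) 0 1 0).card : ℝ) = G S (2 * A) - 2 * G S A + G S (A / 2) := by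
  classical
  have h1 := G_win S hA (by linarith : A ≤ 2 * A)
  have h2 := G_win S (by linarith : 0 < A / 2) (by linarith : A / 2 ≤ A)
  have hun : wc S A (2 * A) 1 0 = cls S A (2 * A) 0 1 0 ∪
      (wc S (A / 2) A 1 0).image (fun x => 2 * x) := by
    ext x
    rw [mem_union, mem_wc, mem_cls, mem_image]
    constructor
    · rintro ⟨h, hxS, hd⟩
      rcases Int.even_or_odd x with he | ho
      · right
        obtain ⟨t, ht⟩ := he
        have hx2 : x = 2 * t := by omega
        refine ⟨t, ?_, hx2.symm⟩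
        rw [mem_wc]
        subst hx2
        push_cast at h
        exact ⟨⟨by linarith [h.1], by linarith [h.2]⟩, (hS.two t).1 hxS, one_dvd _⟩
      · left
        exact ⟨h, ho, hxS, by simp⟩
    · rintro (⟨h, _, hxS, _⟩ | ⟨t, ht, rfl⟩)
      · exact ⟨h, hxS, one_dvd _⟩
      · rw [mem_wc] at ht
        push_cast
        exact ⟨⟨by linarith [ht.1.1], by linarith [ht.1.2]⟩, (hS.two t).2 ht.2.1, one_dvd _⟩
  have hdisj : Disjoint (cls S A (2 * A) 0 1 0) ((wc S (A / 2) A 1 0).image (fun x => 2 * x)) := by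
    rw [Finset.disjoint_left]
    intro x hx hx'
    rw [mem_cls] at hx
    rw [mem_image] at hx'
    obtain ⟨t, _, rfl⟩ := hx'
    have := hx.2.1
    rw [← Int.not_even_iff_odd] at this
    exact this (even_two_mul t)
  have hcard : ((wc S A (2 * A) 1 0).card : ℝ) =
      (cls S A (2 * A) 0 1 0).card + (wc S (A / 2) A 1 0).card := by
    rw [hun, card_union_of_disjoint hdisj, card_image_of_injective _ (fun x y h => by
      have : 2 * x = 2 * y := h
      omega)]
    push_cast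
    rfl
  linarith

/-- the classes mod `3^m` form a partition -/
theorem clI_sum (S : Set ℤ) (a b : ℝ) (m : ℕ) :
    ∑ c ∈ range (3 ^ m), ((cls S a b m 1 (c : ℤ)).card : ℝ) = (cls S a b 0 1 0).card := by
  classical
  have hpos : (0 : ℤ) < 3 ^ m := by positivity
  have h := card_eq_sum_card_fiberwise (s := cls S a b 0 1 0) (t := range (3 ^ m))
    (f := fun x : ℤ => (x % 3 ^ m).toNat) (by
      intro x _
      simp only [Finset.coe_range, Set.mem_Iio]
      have h1 := Int.emod_lt_of_pos x hpos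
      have h2 := Int.emod_nonneg x hpos.ne'
      have : ((x % 3 ^ m).toNat : ℤ) < ((3 ^ m : ℕ) : ℤ) := by
        rw [Int.toNat_of_nonneg h2]; push_cast; exact h1
      exact_mod_cast this)
  rw [h, Nat.cast_sum]
  refine sum_congr rfl fun c hc => ?_
  congr 2
  ext x
  rw [mem_cls, mem_filter, mem_cls]
  have hc' : (c : ℤ) < 3 ^ m := by exact_mod_cast mem_range.1 hc
  have h2 := Int.emod_nonneg x hpos.ne'
  have key : (3 : ℤ) ^ m ∣ 1 * x - c ↔ (x % 3 ^ m).toNat = c := by
    rw [one_mul]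
    constructor
    · intro hd
      have h3 : x % 3 ^ m = (c : ℤ) % 3 ^ m := (Int.modEq_iff_dvd.2 hd).symm
      rw [Int.emod_eq_of_lt (by positivity) hc'] at h3
      rw [h3]; rfl
    · intro he
      have h3 : x % 3 ^ m = (c : ℤ) := by rw [← he, Int.toNat_of_nonneg h2]
      have h4 : x % 3 ^ m = (c : ℤ) % 3 ^ m := by rw [h3, Int.emod_eq_of_lt (by positivity) hc']
      exact Int.modEq_iff_dvd.1 (Int.ModEq.symm h4)
  rw [key]
  simp only [pow_zero, isUnit_one, IsUnit.dvd, and_true]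
  tauto

theorem class_bound {S : Set ℤ} (hS : Inv 1 S) {δ : ℝ}
    (hδ : Tendsto (fun X : ℝ => G S X / X) atTop (𝓝 δ)) {ε : ℝ} (hε : 0 < ε) :
    ∃ A0 : ℝ, 0 < A0 ∧ ∀ A : ℝ, A0 ≤ A → ∀ m : ℕ, (m : ℝ) ^ 2 ≤ Real.log A →
      PB S A m (δ + ε) := by
  obtain ⟨C, hC, hequi⟩ := equi_odd 1 (d := 1) odd_one isCoprime_one_left
  have hlim : Tendsto (fun A : ℝ => (G S (2 * A) - 2 * G S A + G S (A / 2)) / A) atTop
      (𝓝 (2 * δ - 2 * δ + δ / 2)) := by
    have t1 : Tendsto (fun A : ℝ => 2 * (G S (2 * A) / (2 * A))) atTop (𝓝 (2 * δ)) :=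
      (hδ.comp (tendsto_id.const_mul_atTop (by norm_num : (0 : ℝ) < 2))).const_mul 2
    have t2 : Tendsto (fun A : ℝ => 2 * (G S A / A)) atTop (𝓝 (2 * δ)) := hδ.const_mul 2
    have t3 : Tendsto (fun A : ℝ => G S (A / 2) / (A / 2) / 2) atTop (𝓝 (δ / 2)) :=
      (hδ.comp (tendsto_id.atTop_div_const (by norm_num : (0 : ℝ) < 2))).div_const 2
    refine ((t1.sub t2).add t3).congr' ?_
    filter_upwards [eventually_gt_atTop 0] with A hA
    field_simp
  have e1 : ∀ᶠ A : ℝ in atTop, (G S (2 * A) - 2 * G S A + G S (A / 2)) / A < δ / 2 + ε / 4 := by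
    refine (tendsto_order.1 hlim).2 _ ?_
    linarith
  have e2 : ∀ᶠ A : ℝ in atTop, max 1000 (2 * C / ε) ≤ Real.log A :=
    Real.tendsto_log_atTop.eventually_ge_atTop _
  obtain ⟨A1, hA1⟩ := eventually_atTop.1 (e1.and e2)
  refine ⟨max A1 1, lt_of_lt_of_le zero_lt_one (le_max_right _ _), ?_⟩
  intro A hA m hm u v hu
  have hA0 : 0 < A := lt_of_lt_of_le zero_lt_one ((le_max_right _ _).trans hA)
  obtain ⟨h1, h2⟩ := hA1 A ((le_max_left _ _).trans hA)
  have hlog : 1000 ≤ Real.log A := (le_max_left _ _).trans h2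
  have hlog2 : 2 * C / ε ≤ Real.log A := (le_max_right _ _).trans h2
  obtain ⟨c, hc⟩ := cls_unit S A (2 * A) m hu v
  rw [hc]
  have hq := fun c' : ℤ => hequi S hS.fwd hS.compl.fwd A hA0 hlog m hm c c'
  have hsum : ∑ c' ∈ range (3 ^ m), ((cls S A (2 * A) m 1 c).card : ℝ) ≤
      ∑ c' ∈ range (3 ^ m), (((cls S A (2 * A) m 1 (c' : ℤ)).card : ℝ) +
        C / (Real.log A) ^ 1 * (A / (2 * 3 ^ m))) := sum_le_sum fun c' _ => hq c'
  rw [sum_add_distrib, clI_sum, clI_odd hS hA0, sum_const, sum_const, card_range, nsmul_eq_mul,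
    nsmul_eq_mul] at hsum
  rw [div_lt_iff₀ hA0] at h1
  push_cast at hsum
  have hCl : C / Real.log A ≤ ε / 2 := by
    rw [div_le_div_iff₀ (by linarith) (by norm_num)]
    rw [div_le_iff₀ hε] at hlog2
    linarith
  set x : ℝ := ((cls S A (2 * A) m 1 c).card : ℝ) with hx
  have h3 : (0 : ℝ) < 3 ^ m := by positivity
  have h4 : (3 : ℝ) ^ m * (C / Real.log A ^ 1 * (A / (2 * 3 ^ m))) = C / Real.log A * (A / 2) := by
    rw [pow_one]
    field_simp
  rw [h4] at hsum
  have h5 : (δ + ε) * (A / (2 * 3 ^ m)) = ((δ + ε) * (A / 2)) / 3 ^ m := by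
    field_simp
  rw [h5, le_div_iff₀ h3]
  have h6 : C / Real.log A * (A / 2) ≤ ε / 2 * (A / 2) :=
    mul_le_mul_of_nonneg_right hCl (by linarith)
  nlinarith

end Pool.Agent.H499R2.ND
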