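import Pool.Agent.H55.G.R_seed8.H499R2.CL.I
import Pool.Agent.H33.G.R_seed8.H499R2.CL.N
import Pool.Agent.H33.G.R_seed8.H499R2.CL.P
import Pool.Agent.H33.G.R_seed8.H499R2.CL.PBs
import Pool.Agent.H33.G.R_seed8.H499R2.CL.M2
import Pool.Agent.H33.G.R_seed8.H499R2.CL.O1x

/-! Project CL: central limit theorem for the hitting time of a trajectory (shortcut map). -/

set_option autoImplicit false

namespace Pool.Agent.H499R2.ND

open Pool.Agent.H320R2.PD Finset Filter Topology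

open Pool.Agent.H319R2.Lln (mu)

theorem class_PB {a : ℕ} {δ : ℝ} (hδ : Dn (Cn a) δ) : ∀ ε : ℝ, 0 < ε → ∃ A0 : ℝ, 0 < A0 ∧ ∀ A : ℝ,
    A0 ≤ A → ∀ m : ℕ, (m : ℝ) ^ 2 ≤ Real.log A → PB (Me (orb a)) A m (δ + ε) := by
  intro ε hε
  have hs : (1 : ℤ) = 1 ∨ (1 : ℤ) = -1 := Or.inl rfl
  obtain ⟨l, _, _, hl⟩ := dens_side odd_one isCoprime_one_left hs (NS_inv (fun n _ => Cn_inv a n))
  have h1 : Tendsto (fun N : ℕ => cnt (Cn a) N / N) atTop (𝓝 l) := by
    refine (HD_ncard hs hl).congr fun N => ?_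
    rw [NS_ncard]; rfl
  have h2 : l = δ := tendsto_nhds_unique h1 hδ
  rw [h2] at hl
  rw [Me_orb]
  refine class_bound (NS_inv (fun n _ => Cn_inv a n)) ?_ hε
  unfold HD at hl
  simpa only [one_mul, Set.setOf_mem_eq] using hl

/-- upper bound of the early event -/
theorem O_upper {a : ℕ} {δ : ℝ} (hδ : Dn (Cn a) δ) (x : ℝ) {ε : ℝ} (hε : 0 < ε) :
    ∀ᶠ N : ℕ in atTop, cnt (evT a x) N ≤ (δ * Phi x + ε) * N := by
  have hδ0 := dn_nonneg hδ
  have he : 0 < ε / (2 * (δ + 1)) := by positivity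
  obtain ⟨θ, hθ, hθ'⟩ := M_Phi_near x he
  have h := dens_of_windows (Q := evT a x) (ρ := δ * Phi (x + θ)) (mul_nonneg hδ0 (M_Phi_nonneg _))
    (by
      intro b ε' hε'
      obtain ⟨A1, hA1, hA1'⟩ := early_clt (orb_FC a) (orbit_sp (a : ℤ)) hδ0 (class_PB hδ) (x + θ) hε'
      obtain ⟨A2, hA2, hA2'⟩ := O_win x hθ (E := (b + 1) * Real.log 2) (D := 0)
        (by have := Real.log_pos (by norm_num : (1 : ℝ) < 2); positivity) le_rfl
      refine ⟨max A1 A2, lt_max_of_lt_left hA1, ?_⟩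
      intro A hA
      have hA0 : 0 < A := hA1.trans_le ((le_max_left _ _).trans hA)
      obtain ⟨hL1, hw⟩ := hA2' A ((le_max_right _ _).trans hA)
      have hPB := hA1' A ((le_max_left _ _).trans hA)
        ⌊Real.log A / mu + (x + θ) * sg * Real.sqrt (Real.log A)⌋ (Int.floor_le _)
      refine PB_sub (fun y hy1 hy2 hy => ?_) hPB
      obtain ⟨hy0, k, hk, j, hj⟩ := hy
      obtain ⟨hl1, hl2⟩ := O_log hA0 (e := b) hy1 hy2
      have hk2 := (hw _ hl1 hl2).1
      rw [add_zero] at hk2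
      have hk3 : (k : ℤ) ≤ ⌊Real.log A / mu + (x + θ) * sg * Real.sqrt (Real.log A)⌋ := by
        rw [Int.le_floor]
        exact_mod_cast hk.trans hk2
      obtain ⟨n, rfl⟩ : ∃ n : ℕ, y = n := ⟨y.toNat, (Int.toNat_of_nonneg (by omega)).symm⟩
      rw [Int.toNat_natCast] at hj
      refine ⟨hy0, ?_⟩
      rcases le_or_gt b k with hbk | hbk
      · refine ⟨k - b, by omega, ?_⟩
        rw [orb_cast]
        refine ⟨j, ?_⟩
        rw [← hj]
        have : k = (k - b) + b := by omega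
        conv_rhs => rw [this, Function.iterate_add_apply, Tn_two_pow]
      · refine ⟨0, by omega, ?_⟩
        rw [orb_cast]
        refine ⟨(b - k) + j, ?_⟩
        rw [Function.iterate_add_apply, ← hj, ← Function.iterate_add_apply]
        have : b - k + k = b := by omega
        rw [this, Tn_two_pow]; rfl)
    (show 0 < ε / 2 by positivity)
  filter_upwards [h] with N hN
  refine hN.trans ?_
  apply mul_le_mul_of_nonneg_right _ (Nat.cast_nonneg N)
  have h1 : δ * Phi (x + θ) ≤ δ * (Phi x + ε / (2 * (δ + 1))) := mul_le_mul_of_nonneg_left hθ' hδ0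
  have h2 : δ * (ε / (2 * (δ + 1))) ≤ ε / 2 := by
    have : δ * (ε / (2 * (δ + 1))) = ε / 2 * (δ / (δ + 1)) := by field_simp
    rw [this]
    have h3 : δ / (δ + 1) ≤ 1 := by rw [div_le_one (by positivity)]; linarith
    nlinarith
  linarith

/-- upper bound of the late event -/
theorem O_lower {a : ℕ} {δ : ℝ} (hδ : Dn (Cn a) δ) (x : ℝ) {ε : ℝ} (hε : 0 < ε) :
    ∀ᶠ N : ℕ in atTop, cnt (fun n => Cn a n ∧ ¬ evT a x n) N ≤ (δ * (1 - Phi x) + ε) * N := by
  have hδ0 := dn_nonneg hδ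
  have he : 0 < ε / (2 * (δ + 1)) := by positivity
  obtain ⟨θ, hθ, hθ'⟩ := M_Phi_near (-x) he
  have hq : 1 - Phi (x - θ) ≤ 1 - Phi x + ε / (2 * (δ + 1)) := by
    have e1 : Phi (-x + θ) = 1 - Phi (x - θ) := by
      rw [← Phi_neg]; congr 1; ring
    rw [e1, Phi_neg] at hθ'
    exact hθ'
  have h := dens_of_windows (Q := fun n => Cn a n ∧ ¬ evT a x n) (ρ := δ * (1 - Phi (x - θ)))
    (mul_nonneg hδ0 (by linarith [M_Phi_le_one (x - θ)]))
    (by
      intro b ε' hε'
      obtain ⟨A1, hA1, hA1'⟩ := late_clt (orb_FC a) hδ0 (class_PB hδ) (x - θ) hε'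
      obtain ⟨A2, hA2, hA2'⟩ := O_win x hθ (E := (b + 1) * Real.log 2) (D := b + 1)
        (by have := Real.log_pos (by norm_num : (1 : ℝ) < 2); positivity) (by positivity)
      refine ⟨max A1 A2, lt_max_of_lt_left hA1, ?_⟩
      intro A hA
      have hA0 : 0 < A := hA1.trans_le ((le_max_left _ _).trans hA)
      obtain ⟨hL1, hw⟩ := hA2' A ((le_max_right _ _).trans hA)
      have hPB := hA1' A ((le_max_left _ _).trans hA)
        ⌈Real.log A / mu + (x - θ) * sg * Real.sqrt (Real.log A)⌉ (Int.le_ceil _)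
      refine PB_sub (fun y hy1 hy2 hy => ?_) hPB
      obtain ⟨hy0, hC, hE⟩ := hy
      obtain ⟨hl1, hl2⟩ := O_log hA0 (e := b) hy1 hy2
      have hk2 := (hw _ hl1 hl2).2
      refine ⟨?_, ?_⟩
      · rw [Me_orb]
        rw [← (NS_inv (fun n _ => Cn_inv a n) : Inv 1 (NS (Cn a))).two_pow b]
        refine ⟨by have : (0 : ℤ) < 2 ^ b * y := by positivity
                   omega, ?_⟩
        have : (2 ^ b * y).toNat = 2 ^ b * y.toNat := by
          obtain ⟨n, rfl⟩ : ∃ n : ℕ, y = n := ⟨y.toNat, (Int.toNat_of_nonneg (by omega)).symm⟩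
          rw [Int.toNat_natCast]
          have : (2 ^ b * (n : ℤ)) = ((2 ^ b * n : ℕ) : ℤ) := by push_cast; ring
          rw [this, Int.toNat_natCast]
        rw [this]; exact hC
      · rintro ⟨_, k, hk, hk'⟩
        apply hE
        refine ⟨k + b, ?_, ?_⟩
        · refine le_trans ?_ hk2
          have h1 := Int.ceil_lt_add_one (Real.log A / mu + (x - θ) * sg * Real.sqrt (Real.log A))
          have h2 : (k : ℝ) ≤ (⌈Real.log A / mu + (x - θ) * sg * Real.sqrt (Real.log A)⌉ : ℝ) := by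
            exact_mod_cast hk
          push_cast
          linarith
        · obtain ⟨n, rfl⟩ : ∃ n : ℕ, y = n := ⟨y.toNat, (Int.toNat_of_nonneg (by omega)).symm⟩
          rw [orb_cast] at hk'
          rw [Int.toNat_natCast, Function.iterate_add_apply, Tn_two_pow]
          exact hk')
    (show 0 < ε / 2 by positivity)
  filter_upwards [h] with N hN
  refine hN.trans ?_
  apply mul_le_mul_of_nonneg_right _ (Nat.cast_nonneg N)
  have h1 : δ * (1 - Phi (x - θ)) ≤ δ * (1 - Phi x + ε / (2 * (δ + 1))) := mul_le_mul_of_nonneg_left hq hδ0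
  have h2 : δ * (ε / (2 * (δ + 1))) ≤ ε / 2 := by
    have : δ * (ε / (2 * (δ + 1))) = ε / 2 * (δ / (δ + 1)) := by field_simp
    rw [this]
    have h3 : δ / (δ + 1) ≤ 1 := by rw [div_le_one (by positivity)]; linarith
    nlinarith
  linarith

/-- CENTRAL LIMIT THEOREM for the hitting time of a trajectory -/
theorem clt_T {a : ℕ} {δ : ℝ} (hδ : Dn (Cn a) δ) (x : ℝ) : Dn (evT a x) (δ * Phi x) := by
  unfold Dn
  rw [Metric.tendsto_atTop']
  intro ε hε
  have h1 := O_upper hδ x (show 0 < ε / 4 by positivity)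
  have h2 := O_lower hδ x (show 0 < ε / 4 by positivity)
  have h3 : ∀ᶠ N : ℕ in atTop, δ - ε / 4 < cnt (Cn a) N / N :=
    (Tendsto.eventually hδ (lt_mem_nhds (by linarith)))
  obtain ⟨N0, hN0⟩ := eventually_atTop.1 (h1.and (h2.and (h3.and (eventually_gt_atTop 0))))
  refine ⟨N0, fun N hN => ?_⟩
  obtain ⟨h1, h2, h3, h4⟩ := hN0 N hN.le
  have hN' : (0 : ℝ) < N := by exact_mod_cast h4
  rw [lt_div_iff₀ hN'] at h3
  have h5 : cnt (Cn a) N ≤ cnt (evT a x) N + cnt (fun n => Cn a n ∧ ¬ evT a x n) N := by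
    apply cnt_or
    intro n _ _ hn
    by_cases h : evT a x n
    · exact Or.inl h
    · exact Or.inr ⟨hn, h⟩
  rw [Real.dist_eq, abs_lt]
  constructor
  · rw [neg_lt_sub_iff_lt_add, ← sub_lt_iff_lt_add', lt_div_iff₀ hN']
    nlinarith
  · rw [sub_lt_iff_lt_add', div_lt_iff₀ hN']
    nlinarith

end Pool.Agent.H499R2.ND
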